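import Pool.Agent.Helper5.SR.St2

/-!
# Project SR, module SUP
-/

set_option autoImplicit false

namespace Pool.Agent.Helper31.SR

open Complex MeasureTheory Set Metric Filter Topology
open scoped Real
open Pool.Agent.Helper60.Rel (LH tc Admissible ClassS)
open Helper5.SR Pool.Agent.Helper51.LT

theorem hSup (hHump : StHump) : StSup := by
  intro β hβ A K
  by_cases h0 : 0 ≤ β
  · obtain ⟨γ, hγ, hHU⟩ := hβ.resolve_left (not_lt.2 h0)
    obtain ⟨h, ρ, lam, hBU, hh0, -, hρ, hρ1, hA, -, -, hd, hlam, hK⟩ :=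
      hHump β γ h0 hγ hHU 1 (max A 2) K le_rfl
    refine ⟨h, ρ, hBU, hh0, ?_, hρ, hρ1, ?_, hK⟩
    · rw [hd, Complex.norm_real, Real.norm_eq_abs]
      refine le_trans ?_ (le_abs_self _)
      by_contra hc
      have hc := not_le.1 hc
      have h2 : 2 * (1 - lam) ≤ max A 2 * (1 - lam) :=
        mul_le_mul_of_nonneg_right (le_max_right _ _) (by linarith)
      linarith
    · exact (mul_le_mul_of_nonneg_right (le_max_left _ _) (by linarith)).trans hA
  · have h0 := not_le.1 h0
    have h1 : Tendsto (fun x : ℝ => A * x) (𝓝[>] 0) (𝓝 0) := by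
      have : Tendsto (fun x : ℝ => A * x) (𝓝[>] 0) (𝓝 (A * 0)) :=
        (tendsto_id.mono_left nhdsWithin_le_nhds).const_mul A
      simpa using this
    have h2 : Tendsto (fun x : ℝ => K * x ^ (-β)) (𝓝[>] 0) (𝓝 0) := by
      have h3 : Tendsto (fun x : ℝ => x ^ (-β)) (𝓝[>] 0) (𝓝 ((0 : ℝ) ^ (-β))) :=
        (Real.continuousAt_rpow_const 0 (-β) (Or.inr (by linarith))).tendsto.mono_left
          nhdsWithin_le_nhds
      rw [Real.zero_rpow (by linarith)] at h3
      simpa using h3.const_mul K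
    have hpi : (0 : ℝ) < 2 * π := by positivity
    obtain ⟨x, ⟨hx1, hx2⟩, hx⟩ := (((h1.eventually (gt_mem_nhds one_pos)).and
      (h2.eventually (gt_mem_nhds hpi))).and (Ioo_mem_nhdsGT one_pos)).exists
    have hid : ∀ z : ℂ, deriv (fun z : ℂ => z) z = 1 := fun z => by simp
    refine ⟨fun z => z, 1 - x, ⟨⟨differentiableOn_id, injOn_id _⟩, ?_⟩, rfl, ?_, by linarith [hx.2],
      by linarith [hx.1], ?_, ?_⟩
    · intro z hz
      exact (mem_ball_zero_iff.1 hz).le
    · rw [hid]; norm_num
    · have : 1 - (1 - x) = x := by ring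
      rw [this]; exact hx1.le
    · have : 1 - (1 - x) = x := by ring
      rw [this]
      unfold IM
      simp only [hid]
      simpa using hx2

end Pool.Agent.Helper31.SR
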