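import Pool.Agent.Helper5.SR.St2

/-!
# Project SR, module TW1
-/

set_option autoImplicit false

namespace Pool.Agent.Helper31.SR

open Complex MeasureTheory Set Metric Filter Topology
open scoped Real
open Pool.Agent.Helper60.Rel (LH tc Admissible ClassS isOpen_LH)
open Helper5.SR Pool.Agent.Helper51.LT

theorem mem_LH {z : ℂ} : z ∈ LH ↔ z.re < 0 := Iff.rfl

/-- periodicity, `n` times -/
theorem per_nat {T : ℂ → ℂ} (h : ∀ ζ ∈ LH, T (ζ + 2 * π * I) = T ζ + 2 * π * I) {ζ : ℂ}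
    (hζ : ζ ∈ LH) (n : ℕ) : T (ζ + n * (2 * π * I)) = T ζ + n * (2 * π * I) := by
  induction n with
  | zero => simp
  | succ n ih =>
    have h1 : ζ + n * (2 * π * I) ∈ LH := by
      rw [mem_LH] at hζ ⊢
      simpa using hζ
    have h2 : ζ + ((n + 1 : ℕ) : ℂ) * (2 * π * I) = ζ + n * (2 * π * I) + 2 * π * I := by
      push_cast; ring
    rw [h2, h _ h1, ih]
    push_cast; ring

theorem mul_LH {Q : ℕ} (hQ : 2 ≤ Q) {ζ : ℂ} (hζ : ζ ∈ LH) : (Q : ℂ) * ζ ∈ LH := by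
  rw [mem_LH] at hζ ⊢
  have : ((Q : ℂ) * ζ).re = Q * ζ.re := by simp
  rw [this]
  have : (2 : ℝ) ≤ Q := by exact_mod_cast hQ
  nlinarith

theorem div_re {Q : ℕ} (w : ℂ) : (w / (Q : ℂ)).re = w.re / Q := by
  have : (Q : ℂ) = ((Q : ℝ) : ℂ) := by norm_num
  rw [this, Complex.div_ofReal_re]

theorem div_LH {Q : ℕ} (hQ : 2 ≤ Q) {w : ℂ} (hw : w ∈ LH) : w / (Q : ℂ) ∈ LH := by
  rw [mem_LH] at hw ⊢
  rw [div_re]
  have : (2 : ℝ) ≤ Q := by exact_mod_cast hQ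
  exact div_neg_of_neg_of_pos hw (by linarith)

theorem hTw1 : StTw1 := by
  intro C Q Φ hC hQ hL
  obtain ⟨hd, hinj, hper, hre, hb⟩ := hL
  have hQr : (2 : ℝ) ≤ Q := by exact_mod_cast hQ
  have hQ0 : (Q : ℂ) ≠ 0 := by
    have : Q ≠ 0 := by omega
    exact_mod_cast this
  have hLC : ∀ k, LC (2 * C) (TW Φ Q k) := by
    intro k
    induction k with
    | zero =>
      refine ⟨differentiableOn_id, injOn_id _, fun ζ _ => rfl, fun ζ _ => le_rfl, fun ζ _ => ?_⟩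
      simp only [TW, sub_self, norm_zero]
      linarith
    | succ k ih =>
      obtain ⟨kd, kinj, kper, kre, kb⟩ := ih
      have kmap : ∀ ζ ∈ LH, TW Φ Q k (Q * ζ) ∈ LH := fun ζ hζ => by
        have h1 := kre _ (mul_LH hQ hζ)
        have h2 := mul_LH hQ hζ
        rw [mem_LH] at h2 ⊢
        linarith
      have pmap : ∀ ζ ∈ LH, TW Φ Q k (Q * ζ) / Q ∈ LH := fun ζ hζ => div_LH hQ (kmap ζ hζ)
      have pre : ∀ ζ ∈ LH, (TW Φ Q k (Q * ζ) / Q).re ≤ ζ.re := fun ζ hζ => by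
        have h1 := kre _ (mul_LH hQ hζ)
        have h3 : ((Q : ℂ) * ζ).re = Q * ζ.re := by simp
        rw [div_re, div_le_iff₀ (by linarith)]
        rw [h3] at h1
        linarith
      have hmaps : MapsTo (fun ζ : ℂ => (Q : ℂ) * ζ) LH LH := fun ζ hζ => mul_LH hQ hζ
      refine ⟨?_, ?_, ?_, ?_, ?_⟩
      · have h1 : DifferentiableOn ℂ (fun ζ : ℂ => TW Φ Q k (Q * ζ) / Q) LH :=
          (kd.comp (differentiableOn_id.const_mul (Q : ℂ)) hmaps).div_const _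
        exact hd.comp h1 pmap
      · intro ζ hζ ξ hξ he
        have h1 := hinj (pmap ζ hζ) (pmap ξ hξ) he
        have h2 : TW Φ Q k (Q * ζ) = TW Φ Q k (Q * ξ) := by
          field_simp at h1
          exact h1
        have h3 := kinj (mul_LH hQ hζ) (mul_LH hQ hξ) h2
        exact mul_left_cancel₀ hQ0 h3
      · intro ζ hζ
        change Φ (TW Φ Q k (Q * (ζ + 2 * π * I)) / Q) = Φ (TW Φ Q k (Q * ζ) / Q) + 2 * π * I
        have h1 : (Q : ℂ) * (ζ + 2 * π * I) = Q * ζ + Q * (2 * π * I) := by ring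
        rw [h1, per_nat kper (mul_LH hQ hζ) Q]
        have h2 : (TW Φ Q k (Q * ζ) + Q * (2 * π * I)) / Q =
            TW Φ Q k (Q * ζ) / Q + 2 * π * I := by field_simp
        rw [h2, hper _ (pmap ζ hζ)]
      · intro ζ hζ
        exact (hre _ (pmap ζ hζ)).trans (pre ζ hζ)
      · intro ζ hζ
        change ‖Φ (TW Φ Q k (Q * ζ) / Q) - ζ‖ ≤ 2 * C
        have hζL : ζ ∈ LH := by rw [mem_LH]; linarith
        have h1 := hb _ ((pre ζ hζL).trans hζ)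
        have h3 : ((Q : ℂ) * ζ).re = Q * ζ.re := by simp
        have h2 := kb (Q * ζ) (by rw [h3]; nlinarith)
        have h4 : TW Φ Q k (Q * ζ) / Q - ζ = (TW Φ Q k (Q * ζ) - Q * ζ) / Q := by field_simp
        have h5 : ‖TW Φ Q k (Q * ζ) / Q - ζ‖ ≤ C := by
          rw [h4, norm_div, Complex.norm_natCast, div_le_iff₀ (by linarith)]
          nlinarith
        calc ‖Φ (TW Φ Q k (Q * ζ) / Q) - ζ‖
            = ‖(Φ (TW Φ Q k (Q * ζ) / Q) - TW Φ Q k (Q * ζ) / Q) +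
                (TW Φ Q k (Q * ζ) / Q - ζ)‖ := by congr 1; ring
          _ ≤ C + C := (norm_add_le _ _).trans (add_le_add h1 h5)
          _ = 2 * C := by ring
  intro k
  refine ⟨hLC k, ?_⟩
  intro ζ hζ
  obtain ⟨kd, kinj, kper, kre, kb⟩ := hLC k
  have h1 := mul_LH hQ hζ
  have h2 : TW Φ Q k (Q * ζ) / Q ∈ LH := by
    refine div_LH hQ ?_
    have h3 := kre _ h1
    rw [mem_LH] at h1 ⊢
    linarith
  have e1 : HasDerivAt (TW Φ Q k) (deriv (TW Φ Q k) (Q * ζ)) (Q * ζ) :=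
    ((kd _ h1).differentiableAt (isOpen_LH.mem_nhds h1)).hasDerivAt
  have e2 : HasDerivAt (fun ζ : ℂ => (Q : ℂ) * ζ) ((Q : ℂ) * 1) ζ :=
    (hasDerivAt_id ζ).const_mul (Q : ℂ)
  have e3 : HasDerivAt (fun ζ : ℂ => TW Φ Q k (Q * ζ) / Q)
      (deriv (TW Φ Q k) (Q * ζ) * (Q * 1) / Q) ζ :=
    (HasDerivAt.comp ζ (h₂ := TW Φ Q k) (h := fun ζ : ℂ => (Q : ℂ) * ζ) e1 e2).div_const _
  have e4 : HasDerivAt Φ (deriv Φ (TW Φ Q k (Q * ζ) / Q)) (TW Φ Q k (Q * ζ) / Q) :=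
    ((hd _ h2).differentiableAt (isOpen_LH.mem_nhds h2)).hasDerivAt
  have e5 : HasDerivAt (fun ζ : ℂ => Φ (TW Φ Q k (Q * ζ) / Q))
      (deriv Φ (TW Φ Q k (Q * ζ) / Q) * (deriv (TW Φ Q k) (Q * ζ) * (Q * 1) / Q)) ζ :=
    HasDerivAt.comp ζ (h₂ := Φ) (h := fun ζ : ℂ => TW Φ Q k (Q * ζ) / Q) e4 e3
  have e6 : TW Φ Q (k + 1) = fun ζ : ℂ => Φ (TW Φ Q k (Q * ζ) / Q) := rfl
  rw [e6, e5.deriv]
  field_simp

end Pool.Agent.Helper31.SR
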