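import Pool.Agent.Helper31.SR.M_TW1

/-!
# Project SR, module TW2
-/

set_option autoImplicit false

namespace Pool.Agent.Helper31.SR

open Complex MeasureTheory Set Metric Filter Topology
open scoped Real
open Pool.Agent.Helper60.Rel (LH tc Admissible ClassS isOpen_LH)
open Helper5.SR Pool.Agent.Helper51.LT

theorem pt_LH {Q : ℕ} (hQ : 2 ≤ Q) (k : ℕ) (τ : ℝ) : pt Q k τ ∈ LH := by
  rw [mem_LH]
  have h : (0 : ℝ) < ((Q : ℝ) ^ k)⁻¹ := by
    have : (0 : ℝ) < Q := by
      have : 0 < Q := by omega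
      exact_mod_cast this
    positivity
  unfold pt
  have h1 : (-((((Q : ℝ) ^ k)⁻¹ : ℝ) : ℂ) + τ * I).re = -((Q : ℝ) ^ k)⁻¹ := by
    rw [Complex.add_re, Complex.neg_re, Complex.ofReal_re]
    simp
  rw [h1]
  linarith

theorem pt_cont (Q k : ℕ) : Continuous (pt Q k) := by
  unfold pt
  fun_prop

theorem pt_add (Q k i : ℕ) (τ : ℝ) : pt Q k (τ + i * (2 * π)) = pt Q k τ + i * (2 * π * I) := by
  unfold pt
  push_cast
  ring

theorem pt_mul {Q : ℕ} (hQ : 2 ≤ Q) (k : ℕ) (τ : ℝ) :
    (Q : ℂ) * pt Q (k + 1) (τ / Q) = pt Q k τ := by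
  unfold pt
  have : (Q : ℂ) ≠ 0 := by
    have : Q ≠ 0 := by omega
    exact_mod_cast this
  push_cast
  rw [pow_succ]
  field_simp

theorem deep_closed (C : ℝ) : IsClosed {w : ℂ | Deep C w} := by
  have h1 : IsClosed {w : ℂ | -C ≤ w.re} := isClosed_le continuous_const Complex.continuous_re
  have h2 : IsClosed {w : ℂ | w.re ≤ -(1 / C)} :=
    isClosed_le Complex.continuous_re continuous_const
  exact h1.inter h2

theorem deep_per {C : ℝ} (w : ℂ) (n : ℕ) : Deep C (w + n * (2 * π * I)) ↔ Deep C w := by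
  unfold Deep
  have : (w + n * (2 * π * I)).re = w.re := by simp
  rw [this]

open Classical in
theorem intble {C : ℝ} {T : ℂ → ℂ} (hT : DifferentiableOn ℂ T LH) {P : ℝ → ℂ} (hP : Continuous P)
    (hm : ∀ t, P t ∈ LH) (a b : ℝ) :
    IntervalIntegrable (fun t => if Deep C (T (P t)) then ‖deriv T (P t)‖ else 0) volume a b := by
  have h1 : Continuous fun t => T (P t) := hT.continuousOn.comp_continuous hP hm
  have h2 : Continuous fun t => ‖deriv T (P t)‖ :=
    ((hT.deriv isOpen_LH).continuousOn.comp_continuous hP hm).norm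
  have h3 : MeasurableSet {t : ℝ | Deep C (T (P t))} :=
    ((deep_closed C).preimage h1).measurableSet
  have h4 : (fun t => if Deep C (T (P t)) then ‖deriv T (P t)‖ else 0) =
      Set.indicator {t : ℝ | Deep C (T (P t))} (fun t => ‖deriv T (P t)‖) := by
    funext t
    rw [Set.indicator_apply]
    rfl
  rw [h4]
  have h5 := h2.intervalIntegrable (μ := volume) a b
  exact ⟨h5.1.indicator h3, h5.2.indicator h3⟩

/-- periodicity of the derivative -/
theorem deriv_per {T : ℂ → ℂ} (h : ∀ ζ ∈ LH, T (ζ + 2 * π * I) = T ζ + 2 * π * I) {ζ : ℂ}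
    (hζ : ζ ∈ LH) (n : ℕ) : deriv T (ζ + n * (2 * π * I)) = deriv T ζ := by
  have h1 : (fun z => T (z + n * (2 * π * I))) =ᶠ[𝓝 ζ] fun z => T z + n * (2 * π * I) := by
    filter_upwards [isOpen_LH.mem_nhds hζ] with z hz
    exact per_nat h hz n
  have h2 := h1.deriv_eq
  rw [deriv_comp_add_const, deriv_add_const] at h2
  exact h2

open Classical in
theorem hTw2 (hTw1 : StTw1) : StTw2 := by
  intro C κ β Q Φ hC hQ hTM k
  obtain ⟨hL, -, hgain⟩ := hTM
  have hTW := hTw1 C Q Φ (by linarith) hQ hL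
  have hQr : (2 : ℝ) ≤ Q := by exact_mod_cast hQ
  have hQ0 : (0 : ℝ) < Q := by linarith
  have hQβ : 0 < (Q : ℝ) ^ β := Real.rpow_pos_of_pos hQ0 _
  induction k with
  | zero =>
    have h1 : ∀ τ : ℝ, (if Deep C (TW Φ Q 0 (pt Q 0 τ)) then ‖deriv (TW Φ Q 0) (pt Q 0 τ)‖
        else 0) = 1 := by
      intro τ
      have h2 : Deep C (TW Φ Q 0 (pt Q 0 τ)) := by
        unfold Deep TW pt
        have : (-((((Q : ℝ) ^ 0)⁻¹ : ℝ) : ℂ) + τ * I).re = -1 := by simp
        simp only [this]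
        have h3 : 1 / C ≤ 1 := by
          rw [div_le_one (by linarith)]; exact hC
        constructor <;> linarith
      have h4 : TW Φ Q 0 = fun ζ => ζ := rfl
      rw [if_pos h2, h4]
      simp
    simp only [h1]
    simp
  | succ k ih =>
    set F : ℕ → ℝ → ℝ := fun k τ => if Deep C (TW Φ Q k (pt Q k τ)) then
      ‖deriv (TW Φ Q k) (pt Q k τ)‖ else 0 with hF
    have hint : ∀ (k : ℕ) (a b : ℝ), IntervalIntegrable (F k) volume a b := fun k a b =>
      intble (hTW k).1.1 (pt_cont Q k) (pt_LH hQ k) a b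
    have hnn : ∀ k τ, 0 ≤ F k τ := fun k τ => by
      simp only [hF]; split_ifs
      · exact norm_nonneg _
      · exact le_rfl
    change 2 * π * ((Q : ℝ) ^ β) ^ (k + 1) ≤ ∫ τ in (0 : ℝ)..(2 * π), F (k + 1) τ
    have ih : 2 * π * ((Q : ℝ) ^ β) ^ k ≤ ∫ τ in (0 : ℝ)..(2 * π), F k τ := ih
    -- pointwise inequality
    have hpt : ∀ σ : ℝ, (Q : ℝ) ^ β * Q * F k σ ≤
        ∑ i ∈ Finset.range Q, F (k + 1) ((σ + i * (2 * π)) / Q) := by
      intro σ
      by_cases hD : Deep C (TW Φ Q k (pt Q k σ))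
      · have hσ := pt_LH hQ k σ
        obtain ⟨kd, kinj, kper, kre, kb⟩ := (hTW k).1
        have hterm : ∀ i : ℕ, F (k + 1) ((σ + i * (2 * π)) / Q) =
            (if Deep C (Φ ((TW Φ Q k (pt Q k σ) + 2 * π * i * I) / Q)) then
              ‖deriv Φ ((TW Φ Q k (pt Q k σ) + 2 * π * i * I) / Q)‖ else 0) *
              ‖deriv (TW Φ Q k) (pt Q k σ)‖ := by
          intro i
          have e1 : (Q : ℂ) * pt Q (k + 1) ((σ + i * (2 * π)) / Q) =
              pt Q k σ + i * (2 * π * I) := by rw [pt_mul hQ, pt_add]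
          have e2 : TW Φ Q k (pt Q k σ + i * (2 * π * I)) / Q =
              (TW Φ Q k (pt Q k σ) + 2 * π * i * I) / Q := by
            rw [per_nat kper hσ i]; congr 2; ring
          have e3 : TW Φ Q (k + 1) (pt Q (k + 1) ((σ + i * (2 * π)) / Q)) =
              Φ ((TW Φ Q k (pt Q k σ) + 2 * π * i * I) / Q) := by
            change Φ (TW Φ Q k (Q * _) / Q) = _
            rw [e1, e2]
          have e4 := (hTW k).2 _ (pt_LH hQ (k + 1) ((σ + i * (2 * π)) / Q))
          rw [e1, e2, deriv_per kper hσ i] at e4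
          simp only [hF]
          rw [e3, e4, norm_mul, ite_mul, zero_mul]
        simp only [hterm]
        rw [← Finset.sum_mul]
        have h1 : F k σ = ‖deriv (TW Φ Q k) (pt Q k σ)‖ := by
          simp only [hF]; rw [if_pos hD]
        rw [h1]
        exact mul_le_mul_of_nonneg_right (hgain _ hD) (norm_nonneg _)
      · have h1 : F k σ = 0 := by simp only [hF]; rw [if_neg hD]
        rw [h1, mul_zero]
        exact Finset.sum_nonneg fun i _ => hnn _ _
    -- change of variables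
    have hint2 : ∀ a b : ℝ, IntervalIntegrable (fun σ => F (k + 1) (σ / Q)) volume a b := by
      intro a b
      have h1 : Continuous fun σ : ℝ => pt Q (k + 1) (σ / Q) :=
        (pt_cont Q (k + 1)).comp (continuous_id.div_const _)
      exact intble (hTW (k + 1)).1.1 h1 (fun t => pt_LH hQ (k + 1) (t / Q)) a b
    have hcv : ∫ τ in (0 : ℝ)..(2 * π), F (k + 1) τ =
        (Q : ℝ)⁻¹ * ∫ σ in (0 : ℝ)..(Q * (2 * π)), F (k + 1) (σ / Q) := by
      rw [intervalIntegral.integral_comp_div _ hQ0.ne']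
      rw [zero_div, mul_div_cancel_left₀ _ hQ0.ne', smul_eq_mul, ← mul_assoc,
        inv_mul_cancel₀ hQ0.ne', one_mul]
    have hsum : ∫ σ in (0 : ℝ)..(Q * (2 * π)), F (k + 1) (σ / Q) =
        ∑ i ∈ Finset.range Q, ∫ σ in (0 : ℝ)..(2 * π), F (k + 1) ((σ + i * (2 * π)) / Q) := by
      have h1 := intervalIntegral.sum_integral_adjacent_intervals
        (f := fun σ => F (k + 1) (σ / Q)) (μ := volume) (a := fun i : ℕ => (i : ℝ) * (2 * π))
        (n := Q) (fun i _ => hint2 _ _)
      have h2 : ((0 : ℕ) : ℝ) * (2 * π) = 0 := by simp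
      rw [h2] at h1
      rw [← h1]
      refine Finset.sum_congr rfl fun i _ => ?_
      rw [intervalIntegral.integral_comp_add_right (fun σ => F (k + 1) (σ / Q)) (i * (2 * π))]
      congr 1
      · ring
      · push_cast; ring
    have hint3 : ∀ i ∈ Finset.range Q, IntervalIntegrable
        (fun σ => F (k + 1) ((σ + i * (2 * π)) / Q)) volume 0 (2 * π) := by
      intro i _
      have h1 : Continuous fun σ : ℝ => pt Q (k + 1) ((σ + i * (2 * π)) / Q) :=
        (pt_cont Q (k + 1)).comp ((continuous_id.add continuous_const).div_const _)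
      exact intble (hTW (k + 1)).1.1 h1 (fun t => pt_LH hQ (k + 1) _) _ _
    have hle : ∫ σ in (0 : ℝ)..(2 * π), (Q : ℝ) ^ β * Q * F k σ ≤
        ∫ σ in (0 : ℝ)..(2 * π), ∑ i ∈ Finset.range Q, F (k + 1) ((σ + i * (2 * π)) / Q) := by
      refine intervalIntegral.integral_mono (by positivity) ((hint k _ _).const_mul _) ?_ hpt
      have h := IntervalIntegrable.sum _ hint3
      have e : (∑ i ∈ Finset.range Q, fun σ : ℝ => F (k + 1) ((σ + i * (2 * π)) / Q)) =
          fun σ : ℝ => ∑ i ∈ Finset.range Q, F (k + 1) ((σ + i * (2 * π)) / Q) := by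
        funext σ
        simp
      rw [e] at h
      exact h
    rw [intervalIntegral.integral_finsetSum hint3, intervalIntegral.integral_const_mul] at hle
    rw [hcv, hsum]
    calc 2 * π * ((Q : ℝ) ^ β) ^ (k + 1)
        = (Q : ℝ) ^ β * (2 * π * ((Q : ℝ) ^ β) ^ k) := by rw [pow_succ]; ring
      _ ≤ (Q : ℝ) ^ β * ∫ τ in (0 : ℝ)..(2 * π), F k τ := mul_le_mul_of_nonneg_left ih hQβ.le
      _ = (Q : ℝ)⁻¹ * ((Q : ℝ) ^ β * Q * ∫ τ in (0 : ℝ)..(2 * π), F k τ) := by
        field_simp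
      _ ≤ _ := mul_le_mul_of_nonneg_left hle (by positivity)

end Pool.Agent.Helper31.SR
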